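import Pool.Agent.X115.HS.Stm

/-! Project HS, part HOL: integrals against the heat kernel with complex time are holomorphic. -/

set_option autoImplicit false

namespace Pool.Agent.X262.HS

open MeasureTheory Set Filter Topology Real Pool.Agent.X115.HS

/-- the derivative of the heat kernel with respect to the time -/
theorem hk_deriv {n : ℕ} (x : X n) (w : ℂ) (hw : 0 < w.re) :
    HasDerivAt (fun w : ℂ => hk w x) (dhk w x) w := by
  have hw0 : w ≠ 0 := by
    rintro rfl
    simp at hw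
  have hpi : (4 * (π : ℂ)) ≠ 0 := by
    simp [Real.pi_ne_zero]
  have h1 : HasDerivAt (fun w : ℂ => 4 * (π : ℂ) * w) (4 * (π : ℂ)) w := by
    simpa using (hasDerivAt_id w).const_mul (4 * (π : ℂ))
  have hsl : 4 * (π : ℂ) * w ∈ Complex.slitPlane := by
    left
    have : (4 * (π : ℂ) * w).re = 4 * π * w.re := by
      have : (4 * (π : ℂ) * w) = ((4 * π : ℝ) : ℂ) * w := by push_cast; ring
      rw [this, Complex.re_ofReal_mul]
    rw [this]
    positivity
  have h2 := h1.cpow_const (c := (-((n : ℂ) / 2))) hsl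
  have h3 : HasDerivAt (fun w : ℂ => -((‖x‖ ^ 2 : ℝ) : ℂ) / (4 * w))
      (((‖x‖ ^ 2 : ℝ) : ℂ) / (4 * w ^ 2)) w := by
    have h4 : HasDerivAt (fun w : ℂ => w⁻¹) (-(w ^ 2)⁻¹) w := hasDerivAt_inv hw0
    have h5 := h4.const_mul (-((‖x‖ ^ 2 : ℝ) : ℂ) / 4)
    refine (h5.congr_deriv ?_).congr_of_eventuallyEq ?_
    · field_simp
    · refine Filter.Eventually.of_forall fun y => ?_
      simp only [div_eq_mul_inv, mul_inv]
      ring
  have h6 := h2.mul h3.cexp
  refine h6.congr_deriv ?_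
  have hne : 4 * (π : ℂ) * w ≠ 0 := mul_ne_zero hpi hw0
  simp only [dhk, hk]
  rw [Complex.cpow_sub _ _ hne, Complex.cpow_one]
  field_simp
  ring

theorem hk_norm {n : ℕ} (x : X n) (w : ℂ) :
    ‖hk w x‖ = ‖4 * (π : ℂ) * w‖ ^ (-((n : ℝ) / 2)) *
      Real.exp (-(‖x‖ ^ 2 * (w.re / (4 * ‖w‖ ^ 2)))) := by
  rw [hk, norm_mul, Complex.norm_exp]
  congr 1
  · have : (-((n : ℂ) / 2)) = ((-((n : ℝ) / 2) : ℝ) : ℂ) := by push_cast; ring
    rw [this, Complex.norm_cpow_real]
  · congr 1
    have : -((‖x‖ ^ 2 : ℝ) : ℂ) / (4 * w) = ((-(‖x‖ ^ 2) / 4 : ℝ) : ℂ) * w⁻¹ := by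
      push_cast
      rw [div_eq_mul_inv, mul_inv]
      ring
    rw [this, Complex.re_ofReal_mul, Complex.inv_re, Complex.normSq_eq_norm_sq]
    ring

/-- uniform bounds for the heat kernel and its derivative -/
theorem bound {n : ℕ} (r R : ℝ) (hr : 0 < r) (hR : 0 < R) :
    ∃ C σ : ℝ, 0 < σ ∧ ∀ w : ℂ, r ≤ w.re → ‖w‖ ≤ R → ∀ x : X n,
      ‖hk w x‖ ≤ C * gk σ x ∧ ‖dhk w x‖ ≤ C * gk σ x := by
  set c : ℝ := r / (4 * R ^ 2) with hc
  have hc0 : 0 < c := by positivity
  set σ : ℝ := 1 / (2 * c) with hσ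
  have hσ0 : 0 < σ := by positivity
  set K : ℝ := (4 * π * r) ^ (-((n : ℝ) / 2)) with hK
  have hK0 : 0 < K := by positivity
  set G : ℝ := (4 * π * σ) ^ (-((n : ℝ) / 2)) with hG
  have hG0 : 0 < G := by positivity
  set D : ℝ := 1 + ((2 / c) / (4 * r ^ 2) + n / (2 * r)) with hD
  have hD1 : 1 ≤ D := by
    have : 0 ≤ (2 / c) / (4 * r ^ 2) + n / (2 * r) := by positivity
    linarith
  refine ⟨K * D / G, σ, hσ0, fun w hwr hwR x => ?_⟩
  have hwpos : 0 < w.re := hr.trans_le hwr
  have hrw : r ≤ ‖w‖ := hwr.trans ((le_abs_self _).trans (Complex.abs_re_le_norm w))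
  have hw0 : 0 < ‖w‖ := hr.trans_le hrw
  set m : ℝ := ‖x‖ ^ 2 with hm
  have hm0 : 0 ≤ m := by positivity
  have hcw : c ≤ w.re / (4 * ‖w‖ ^ 2) := by
    rw [hc]
    apply div_le_div₀ hwpos.le hwr (by positivity)
    have : ‖w‖ ^ 2 ≤ R ^ 2 := pow_le_pow_left₀ hw0.le hwR 2
    linarith
  have h1 : ‖hk w x‖ ≤ K * Real.exp (-(m * c)) := by
    rw [hk_norm]
    apply mul_le_mul _ _ (Real.exp_pos _).le hK0.le
    · have hn : ‖4 * (π : ℂ) * w‖ = 4 * π * ‖w‖ := by
        rw [norm_mul, norm_mul, Complex.norm_real, Real.norm_of_nonneg Real.pi_pos.le]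
        simp
      rw [hn, hK]
      apply Real.rpow_le_rpow_of_nonpos (by positivity)
      · have := Real.pi_pos
        nlinarith
      · have : (0 : ℝ) ≤ n := by positivity
        linarith
    · apply Real.exp_le_exp.2
      have := mul_le_mul_of_nonneg_left hcw hm0
      linarith
  have hgk : gk σ x = G * Real.exp (-(m * c / 2)) := by
    rw [gk, hG]
    congr 2
    rw [hσ]
    field_simp
    ring
  have he1 : Real.exp (-(m * c)) ≤ Real.exp (-(m * c / 2)) := by
    apply Real.exp_le_exp.2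
    have : 0 ≤ m * c := by positivity
    linarith
  have hR1 : K * D / G * gk σ x = K * D * Real.exp (-(m * c / 2)) := by
    rw [hgk]
    field_simp
  rw [hR1]
  constructor
  · refine h1.trans ?_
    have : K * Real.exp (-(m * c)) ≤ K * Real.exp (-(m * c / 2)) :=
      mul_le_mul_of_nonneg_left he1 hK0.le
    refine this.trans ?_
    apply mul_le_mul_of_nonneg_right _ (Real.exp_pos _).le
    nlinarith
  · have h2 : ‖((m : ℝ) : ℂ) / (4 * w ^ 2) - n / (2 * w)‖ ≤ m / (4 * r ^ 2) + n / (2 * r) := by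
      refine (norm_sub_le _ _).trans ?_
      apply add_le_add
      · rw [norm_div, Complex.norm_real, Real.norm_of_nonneg hm0, norm_mul, norm_pow]
        have h4 : ‖(4 : ℂ)‖ = 4 := by simp
        rw [h4]
        apply div_le_div_of_nonneg_left hm0 (by positivity)
        have : r ^ 2 ≤ ‖w‖ ^ 2 := pow_le_pow_left₀ hr.le hrw 2
        linarith
      · rw [norm_div, norm_mul]
        have h4 : ‖(2 : ℂ)‖ = 2 := by simp
        have h5 : ‖(n : ℂ)‖ = n := by simp
        rw [h4, h5]
        apply div_le_div_of_nonneg_left (by positivity) (by positivity)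
        linarith
    have h3 : m * Real.exp (-(m * c)) ≤ 2 / c * Real.exp (-(m * c / 2)) := by
      have h4 : m * c / 2 ≤ Real.exp (m * c / 2) := by
        have := Real.add_one_le_exp (m * c / 2)
        linarith
      have h5 : Real.exp (-(m * c)) = Real.exp (-(m * c / 2)) * Real.exp (-(m * c / 2)) := by
        rw [← Real.exp_add]
        congr 1
        ring
      have h6 : m ≤ 2 / c * Real.exp (m * c / 2) := by
        calc m = 2 / c * (m * c / 2) := by field_simp
          _ ≤ _ := mul_le_mul_of_nonneg_left h4 (by positivity)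
      have h7 : Real.exp (m * c / 2) * Real.exp (-(m * c / 2)) = 1 := by
        rw [← Real.exp_add]
        simp
      calc m * Real.exp (-(m * c)) ≤ (2 / c * Real.exp (m * c / 2)) * Real.exp (-(m * c)) :=
            mul_le_mul_of_nonneg_right h6 (Real.exp_pos _).le
        _ = 2 / c * Real.exp (-(m * c / 2)) *
            (Real.exp (m * c / 2) * Real.exp (-(m * c / 2))) := by rw [h5]; ring
        _ = _ := by rw [h7, mul_one]
    have h8 : ‖dhk w x‖ ≤ (m / (4 * r ^ 2) + n / (2 * r)) * (K * Real.exp (-(m * c))) := by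
      rw [dhk, norm_mul]
      exact mul_le_mul h2 h1 (norm_nonneg _) (by positivity)
    refine h8.trans ?_
    have h9 : (m / (4 * r ^ 2) + n / (2 * r)) * (K * Real.exp (-(m * c))) =
        K * ((m * Real.exp (-(m * c))) / (4 * r ^ 2) + n / (2 * r) * Real.exp (-(m * c))) := by
      ring
    rw [h9, mul_assoc K D]
    apply mul_le_mul_of_nonneg_left _ hK0.le
    have h10 : (m * Real.exp (-(m * c))) / (4 * r ^ 2) ≤
        (2 / c * Real.exp (-(m * c / 2))) / (4 * r ^ 2) :=
      div_le_div_of_nonneg_right h3 (by positivity)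
    have h11 : n / (2 * r) * Real.exp (-(m * c)) ≤ n / (2 * r) * Real.exp (-(m * c / 2)) :=
      mul_le_mul_of_nonneg_left he1 (by positivity)
    have h12 : D * Real.exp (-(m * c / 2)) = Real.exp (-(m * c / 2)) +
        (2 / c * Real.exp (-(m * c / 2))) / (4 * r ^ 2) +
        n / (2 * r) * Real.exp (-(m * c / 2)) := by
      rw [hD]
      ring
    rw [h12]
    have := (Real.exp_pos (-(m * c / 2))).le
    linarith

theorem hk_cont {n : ℕ} (w : ℂ) (x0 : X n) : Continuous fun x : X n => hk w (x - x0) := by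
  unfold hk
  fun_prop

theorem dhk_cont {n : ℕ} (w : ℂ) (x0 : X n) : Continuous fun x : X n => dhk w (x - x0) := by
  unfold dhk hk
  fun_prop

/-- (HOL) -/
theorem t : S_HOL := by
  intro n f x0 hf hint z hz
  set r : ℝ := z.re / 2 with hr
  have hr0 : 0 < r := by positivity
  obtain ⟨C, σ, hσ, hb⟩ := bound (n := n) r (‖z‖ + r) hr0 (by positivity)
  have hball : ∀ w ∈ Metric.ball z r, r ≤ w.re ∧ ‖w‖ ≤ ‖z‖ + r := by
    intro w hw
    rw [Metric.mem_ball, dist_eq_norm] at hw
    constructor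
    · have h1 : |(w - z).re| ≤ ‖w - z‖ := Complex.abs_re_le_norm _
      have h2 := (abs_le.1 (h1.trans hw.le)).1
      rw [Complex.sub_re] at h2
      linarith
    · have : ‖w‖ ≤ ‖z‖ + ‖w - z‖ := by
        have := norm_add_le z (w - z)
        simpa using this
      linarith
  have hfm : AEStronglyMeasurable (fun x => (f x : ℂ)) volume :=
    Complex.continuous_ofReal.comp_aestronglyMeasurable hf
  have hbd : Integrable (fun x => C * |f x * gk σ (x - x0)|) :=
    ((hint σ hσ).abs).const_mul C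
  have hgk0 : ∀ x : X n, 0 ≤ gk σ x := by
    intro x
    unfold gk
    positivity
  have hH : ∀ w ∈ Metric.ball z r, ∀ x, ‖(f x : ℂ) * hk w (x - x0)‖ ≤
      C * |f x * gk σ (x - x0)| := by
    intro w hw x
    obtain ⟨h1, h2⟩ := hball w hw
    rw [norm_mul, Complex.norm_real, Real.norm_eq_abs, abs_mul, abs_of_nonneg (hgk0 _)]
    calc |f x| * ‖hk w (x - x0)‖ ≤ |f x| * (C * gk σ (x - x0)) :=
          mul_le_mul_of_nonneg_left (hb w h1 h2 _).1 (abs_nonneg _)
      _ = _ := by ring
  have hD : ∀ w ∈ Metric.ball z r, ∀ x, ‖(f x : ℂ) * dhk w (x - x0)‖ ≤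
      C * |f x * gk σ (x - x0)| := by
    intro w hw x
    obtain ⟨h1, h2⟩ := hball w hw
    rw [norm_mul, Complex.norm_real, Real.norm_eq_abs, abs_mul, abs_of_nonneg (hgk0 _)]
    calc |f x| * ‖dhk w (x - x0)‖ ≤ |f x| * (C * gk σ (x - x0)) :=
          mul_le_mul_of_nonneg_left (hb w h1 h2 _).2 (abs_nonneg _)
      _ = _ := by ring
  have hzb : z ∈ Metric.ball z r := Metric.mem_ball_self hr0
  have hmH : ∀ w : ℂ, AEStronglyMeasurable (fun x => (f x : ℂ) * hk w (x - x0)) volume :=
    fun w => hfm.mul (hk_cont w x0).aestronglyMeasurable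
  have hmD : ∀ w : ℂ, AEStronglyMeasurable (fun x => (f x : ℂ) * dhk w (x - x0)) volume :=
    fun w => hfm.mul (dhk_cont w x0).aestronglyMeasurable
  have hiH : Integrable (fun x => (f x : ℂ) * hk z (x - x0)) :=
    hbd.mono' (hmH z) (Filter.Eventually.of_forall (hH z hzb))
  have key := hasDerivAt_integral_of_dominated_loc_of_deriv_le (μ := volume)
    (F := fun (w : ℂ) (x : X n) => (f x : ℂ) * hk w (x - x0))
    (F' := fun (w : ℂ) (x : X n) => (f x : ℂ) * dhk w (x - x0)) (x₀ := z)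
    (bound := fun x => C * |f x * gk σ (x - x0)|)
    (Metric.ball_mem_nhds z hr0) (Filter.Eventually.of_forall hmH) hiH (hmD z)
    (Filter.Eventually.of_forall fun x w hw => hD w hw x) hbd
    (Filter.Eventually.of_forall fun x w hw =>
      (hk_deriv (x - x0) w (hr0.trans_le (hball w hw).1)).const_mul _)
  exact ⟨hiH, key.1, key.2⟩

end Pool.Agent.X262.HS
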